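import Pool.Agent.W2helper5.QD.Stm

/-!
Project QD (helper5), piece SYMG: rotations and the reflection.
-/

set_option autoImplicit false

namespace Pool.Agent.W2helper49.QD.S

open MeasureTheory Set Filter Topology Pool.V11275.Quad
open Pool.Agent.Helper717.Hull1 Pool.Agent.Helper717.Hull2
open Pool.Agent.W2helper5.QD

lemma mr_eq {R : Set E2} {S : Set E2} (hS : MeasurableSet S) :
    (mu R).real S = volume.real (S ∩ R) := by
  unfold mu Measure.real
  rw [Measure.restrict_apply hS]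

lemma body_image (g : E2 ≃ₗᵢ[ℝ] E2) {R : Set E2} (hR : Body R) : Body (g '' R) := by
  refine ⟨?_, hR.comp.image g.continuous, ?_⟩
  · exact hR.conv.linear_image g.toLinearEquiv.toLinearMap
  · have h := g.toHomeomorph.image_interior R
    have h2 : (g.toHomeomorph '' interior R).Nonempty := hR.int.image _
    rw [h] at h2
    exact h2

lemma mr_image (g : E2 ≃ₗᵢ[ℝ] E2) (R : Set E2) {S : Set E2} (hS : MeasurableSet S) :
    (mu (g '' R)).real S = (mu R).real (g ⁻¹' S) := by
  have hS' : MeasurableSet (g ⁻¹' S) := g.continuous.measurable hS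
  rw [mr_eq hS, mr_eq hS']
  have h1 : g '' (g ⁻¹' S ∩ R) = S ∩ g '' R := by
    ext x
    constructor
    · rintro ⟨y, ⟨h1, h2⟩, rfl⟩
      exact ⟨h1, y, h2, rfl⟩
    · rintro ⟨h1, y, h2, rfl⟩
      exact ⟨y, ⟨h1, h2⟩, rfl⟩
  rw [← h1]
  unfold Measure.real
  congr 1
  have hmp := g.symm.measurePreserving
  have h2 : g.symm ⁻¹' (g ⁻¹' S ∩ R) = g '' (g ⁻¹' S ∩ R) :=
    (g.toEquiv.image_eq_preimage_symm _).symm
  rw [← h2]
  exact (hmp.measure_preimage_equiv (f := g.symm.toHomeomorph.toMeasurableEquiv) _)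

lemma M_image (g : E2 ≃ₗᵢ[ℝ] E2) (R : Set E2) : M (g '' R) = M R := by
  unfold M
  rw [mr_image g R MeasurableSet.univ]
  rfl

lemma H_image (g : E2 ≃ₗᵢ[ℝ] E2) (hg : ∀ a x, dot (g a) (g x) = dot a x) (R : Set E2) (a : E2)
    (c : ℝ) : H (g '' R) (g a) c = H R a c := by
  unfold H
  rw [mr_image g R (half_meas _ _)]
  congr 1
  ext x
  show c ≤ dot (g a) (g x) ↔ _
  rw [hg]
  rfl

lemma App_image (g : E2 ≃ₗᵢ[ℝ] E2) (hg : ∀ a x, dot (g a) (g x) = dot a x) (R : Set E2)
    (a b : E2) (c d : ℝ) : App (g '' R) (g a) (g b) c d = App R a b c d := by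
  unfold App
  rw [mr_image g R ((half_meas _ _).inter (half_meas _ _))]
  congr 1
  ext x
  show (c ≤ dot (g a) (g x) ∧ d ≤ dot (g b) (g x)) ↔ _
  rw [hg, hg]
  rfl

/-- a linear isometry from the formula -/
lemma exists_iso (f : E2 → E2) (ha : ∀ x y, f (x + y) = f x + f y)
    (hs : ∀ (c : ℝ) x, f (c • x) = c • f x) (hn : ∀ x y, dot (f x) (f y) = dot x y) :
    ∃ g : E2 ≃ₗᵢ[ℝ] E2, ∀ x, g x = f x := by
  let l : E2 →ₗᵢ[ℝ] E2 :=
    { toFun := f
      map_add' := ha
      map_smul' := hs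
      norm_map' := by
        intro x
        have h := hn x x
        have h1 : ∀ y : E2, ‖y‖ = Real.sqrt (dot y y) := by
          intro y
          rw [EuclideanSpace.norm_eq]
          congr 1
          simp [Fin.sum_univ_two, dot, sq]
        show ‖f x‖ = ‖x‖
        rw [h1, h1, h] }
  exact ⟨l.toLinearIsometryEquiv rfl, fun x => rfl⟩

lemma rotA_iso (φ : ℝ) : ∃ g : E2 ≃ₗᵢ[ℝ] E2, ∀ x, g x = rotA φ x := by
  refine exists_iso _ ?_ ?_ ?_
  · intro x y
    apply ext2
    · simp [rotA]; ring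
    · simp [rotA]; ring
  · intro c x
    apply ext2
    · simp [rotA]; ring
    · simp [rotA]; ring
  · intro x y
    have h := Real.sin_sq_add_cos_sq φ
    simp only [dot, rotA, PiLp.toLp_apply, Matrix.cons_val_zero, Matrix.cons_val_one]
    linear_combination (x 0 * y 0 + x 1 * y 1) * h

lemma rfl2_iso : ∃ g : E2 ≃ₗᵢ[ℝ] E2, ∀ x, g x = rfl2 x := by
  refine exists_iso _ ?_ ?_ ?_
  · intro x y
    apply ext2
    · simp [rfl2]
    · simp [rfl2]; ring
  · intro c x
    apply ext2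
    · simp [rfl2]
    · simp [rfl2]
  · intro x y
    simp [dot, rfl2]

lemma dot_iso (g : E2 ≃ₗᵢ[ℝ] E2) (a x : E2) : dot (g a) (g x) = dot a x := by
  have h1 : ∀ u v : E2, dot u v = inner ℝ v u := by
    intro u v
    simp [dot, PiLp.inner_apply, Fin.sum_univ_two]
  rw [h1, h1, g.inner_map_map]

lemma rotA_e (φ θ : ℝ) : rotA φ (e θ) = e (θ + φ) := by
  apply ext2
  · simp [rotA, Real.cos_add]; ring
  · simp [rotA, Real.sin_add]; ring

lemma rfl2_e (θ : ℝ) : rfl2 (e θ) = e (-θ) := by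
  apply ext2
  · simp [rfl2]
  · simp [rfl2]

/-- PIECE SYMG -/
theorem SYMG : Pool.Agent.W2helper5.QD.P_SYMG := by
  intro hB R hR
  obtain ⟨b1, b2, b3, b4, b5, b6⟩ := hB R hR
  have body_rot : ∀ φ, Body (rotA φ '' R) := by
    intro φ
    obtain ⟨g, hg⟩ := rotA_iso φ
    have h : (g : E2 → E2) = rotA φ := funext hg
    rw [← h]
    exact body_image g hR
  have body_rfl : Body (rfl2 '' R) := by
    obtain ⟨g, hg⟩ := rfl2_iso
    have h : (g : E2 → E2) = rfl2 := funext hg
    rw [← h]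
    exact body_image g hR
  refine ⟨body_rot, body_rfl, ?_, ?_⟩
  · intro φ
    obtain ⟨g, hg⟩ := rotA_iso φ
    have h : rotA φ = (g : E2 → E2) := (funext hg).symm
    have hM : M (rotA φ '' R) = M R := by rw [h]; exact M_image g R
    have hhh : ∀ θ, hh (rotA φ '' R) (θ + φ) = hh R θ := by
      intro θ
      symm
      apply (hB _ (body_rot φ)).2.1
      rw [hM, ← b1 θ, ← rotA_e, h]
      exact H_image g (dot_iso g) R (e θ) (hh R θ)
    intro θ
    refine ⟨hhh θ, ?_⟩
    unfold G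
    have e1 : θ + φ + Real.pi / 2 = θ + Real.pi / 2 + φ := by ring
    rw [e1, hhh, hhh, hM, ← rotA_e, ← rotA_e, h, App_image g (dot_iso g)]
  · obtain ⟨g, hg⟩ := rfl2_iso
    have h : rfl2 = (g : E2 → E2) := (funext hg).symm
    have hM : M (rfl2 '' R) = M R := by rw [h]; exact M_image g R
    have hhh : ∀ θ, hh (rfl2 '' R) (-θ) = hh R θ := by
      intro θ
      symm
      apply (hB _ body_rfl).2.1
      rw [hM, ← b1 θ, ← rfl2_e, h]
      exact H_image g (dot_iso g) R (e θ) (hh R θ)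
    intro θ
    refine ⟨hhh θ, ?_⟩
    unfold G
    have e1 : -θ + Real.pi / 2 = -(θ - Real.pi / 2) := by ring
    rw [e1, hhh, hhh, hM, ← rfl2_e, ← rfl2_e, h, App_image g (dot_iso g)]
    have e2 : e (θ - Real.pi / 2) = -e (θ + Real.pi / 2) := by
      have := e_add_pi (θ - Real.pi / 2)
      rw [show θ - Real.pi / 2 + Real.pi = θ + Real.pi / 2 by ring] at this
      rw [this, neg_neg]
    have e3 : hh R (θ - Real.pi / 2) = -hh R (θ + Real.pi / 2) := by
      have := b4 (θ - Real.pi / 2)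
      rw [show θ - Real.pi / 2 + Real.pi = θ + Real.pi / 2 by ring] at this
      rw [this, neg_neg]
    have e4 : App R (e θ) (e (θ - Real.pi / 2)) (hh R θ) (hh R (θ - Real.pi / 2)) =
        Apm R (e θ) (e (θ + Real.pi / 2)) (hh R θ) (hh R (θ + Real.pi / 2)) := by
      rw [e2, e3]
      unfold App Apm
      congr 2
      ext x
      simp only [mem_ofPred_eq, dot, PiLp.neg_apply]
      constructor <;> intro h <;> linarith
    rw [e4, (pieces hR (e_ne _) (e_ne _) (b1 θ) (b1 (θ + Real.pi / 2))).1]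
    ring

end Pool.Agent.W2helper49.QD.S
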