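import Pool.Agent.W2helper5.QD.Stm

/-!
Project QD (helper5), piece UC: uniform closeness of the bisectors and of the quadrant defect for
bodies near the regular polygon.
-/

set_option autoImplicit false

namespace Pool.Agent.W2helper49.QD

open MeasureTheory Set Filter Topology Pool.V11275.Quad
open Pool.Agent.Helper717.Hull1 Pool.Agent.Helper717.Hull2
open Pool.Agent.W2helper5.QD
open scoped Pointwise

lemma mr_eq {R : Set E2} {S : Set E2} (hS : MeasurableSet S) :
    (mu R).real S = volume.real (S ∩ R) := by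
  unfold mu Measure.real
  rw [Measure.restrict_apply hS]

lemma near_diff {m : ℕ} {η : ℝ} {R : Set E2} (hη : 0 ≤ η) (hη1 : η ≤ 1) (hQ : Body (P m))
    (h0 : (0 : E2) ∈ P m) (_hR : Body R) (hN : Near m η R) {S : Set E2} (hS : MeasurableSet S) :
    |(mu R).real S - (mu (P m)).real S| ≤ 4 * η * M (P m) := by
  have hM : M (P m) = volume.real (P m) := by
    unfold M; rw [mr_eq MeasurableSet.univ, univ_inter]
  set A : Set E2 := (1 - η) • P m with hA
  set B : Set E2 := (1 + η) • P m with hB
  have hAR : A ⊆ R := by rintro _ ⟨x, hx, rfl⟩; exact hN.1 x hx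
  have hRB : R ⊆ B := by
    intro x hx
    obtain ⟨y, hy, rfl⟩ := hN.2 x hx
    exact ⟨y, hy, rfl⟩
  have hAQ : A ⊆ P m := by
    rintro _ ⟨x, hx, rfl⟩
    have := hQ.conv hx h0 (a := 1 - η) (b := η) (by linarith) hη (by ring)
    simpa using this
  have hQB : P m ⊆ B := by
    intro x hx
    refine ⟨(1 + η)⁻¹ • x, ?_, ?_⟩
    · have h1 : (1 + η)⁻¹ ≤ 1 := inv_le_one_of_one_le₀ (by linarith)
      have h2 : 0 ≤ (1 + η)⁻¹ := by positivity
      have := hQ.conv hx h0 (a := (1 + η)⁻¹) (b := 1 - (1 + η)⁻¹) h2 (by linarith) (by ring)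
      simpa using this
    · show (1 + η) • (1 + η)⁻¹ • x = x
      rw [smul_smul, mul_inv_cancel₀ (by positivity), one_smul]
  have hBc : IsCompact B := hQ.comp.smul (1 + η)
  have hAc : IsCompact A := hQ.comp.smul (1 - η)
  have hfr : Module.finrank ℝ E2 = 2 := by simp
  have vB : volume.real B = (1 + η) ^ 2 * volume.real (P m) := by
    rw [hB, Measure.real, Measure.addHaar_smul, hfr, ENNReal.toReal_mul,
      ENNReal.toReal_ofReal (abs_nonneg _), abs_of_nonneg (by positivity)]
    rfl
  have vA : volume.real A = (1 - η) ^ 2 * volume.real (P m) := by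
    rw [hA, Measure.real, Measure.addHaar_smul, hfr, ENNReal.toReal_mul,
      ENNReal.toReal_ofReal (abs_nonneg _), abs_of_nonneg (by positivity)]
    rfl
  have hBf : volume B ≠ ⊤ := hBc.measure_lt_top.ne
  have fin : ∀ T : Set E2, T ⊆ B → volume T ≠ ⊤ := fun T hT => measure_ne_top_of_subset hT hBf
  have hkey : volume.real (S ∩ B) ≤ volume.real (S ∩ A) + 4 * η * M (P m) := by
    have h1 : S ∩ B ⊆ (S ∩ A) ∪ (B \ A) := by
      rintro x ⟨h1, h2⟩
      by_cases h3 : x ∈ A
      · left; exact ⟨h1, h3⟩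
      · right; exact ⟨h2, h3⟩
    have h2 : volume.real (S ∩ B) ≤ volume.real ((S ∩ A) ∪ (B \ A)) := by
      refine measureReal_mono h1 (fin _ ?_)
      rintro x (⟨_, h⟩ | ⟨h, _⟩)
      · exact hQB (hAQ h)
      · exact h
    have h3 : volume.real ((S ∩ A) ∪ (B \ A)) ≤ volume.real (S ∩ A) + volume.real (B \ A) :=
      measureReal_union_le _ _
    have h4 : volume.real (B \ A) = volume.real B - volume.real A := by
      have := measureReal_inter_add_sdiff (μ := volume) (s := B) hAc.measurableSet hBf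
      rw [inter_eq_self_of_subset_right (hAQ.trans hQB)] at this
      linarith
    rw [h4, vA, vB] at h3
    rw [hM]
    nlinarith
  have m1 : volume.real (S ∩ A) ≤ volume.real (S ∩ R) :=
    measureReal_mono (inter_subset_inter_right _ hAR) (fin _ (inter_subset_right.trans hRB))
  have m2 : volume.real (S ∩ R) ≤ volume.real (S ∩ B) :=
    measureReal_mono (inter_subset_inter_right _ hRB) (fin _ inter_subset_right)
  have m3 : volume.real (S ∩ A) ≤ volume.real (S ∩ P m) :=
    measureReal_mono (inter_subset_inter_right _ hAQ) (fin _ (inter_subset_right.trans hQB))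
  have m4 : volume.real (S ∩ P m) ≤ volume.real (S ∩ B) :=
    measureReal_mono (inter_subset_inter_right _ hQB) (fin _ inter_subset_right)
  rw [mr_eq hS, mr_eq hS, abs_le]
  constructor <;> linarith

lemma e_cont : Continuous e := by
  unfold e
  fun_prop

lemma cont_H {R : Set E2} (hR : Body R) {a : ℝ → E2} (ha : Continuous a) (h0 : ∀ t, a t ≠ 0)
    {c : ℝ → ℝ} (hc : Continuous c) : Continuous (fun t => H R (a t) (c t)) := by
  have := hR.fin
  rw [continuous_iff_continuousAt]
  intro t0
  have := cont_quad (mu R) (mu_ac R) (a := a) (b := a) (c := c) (d := c) (t0 := t0)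
    ha.continuousAt ha.continuousAt hc.continuousAt hc.continuousAt (h0 _) (h0 _)
  simpa [H] using this

/-- PIECE UC -/
theorem UC : Pool.Agent.W2helper5.QD.P_UC := by
  intro hB hReg m hm μ hμ
  obtain ⟨hQ, ⟨ρ, hρ, hdisc⟩, -⟩ := hReg m hm
  have h0 : (0 : E2) ∈ P m := hdisc 0 (by simpa using hρ.le)
  obtain ⟨b1, b2, b3, b4, b5, b6⟩ := hB (P m) hQ
  have hfin := hQ.fin
  have hV := M_pos hQ
  have hper : ∀ θ, hh (P m) (θ + 2 * Real.pi) = hh (P m) θ := by
    intro θ; rw [two_mul, ← add_assoc, b4, b4, neg_neg]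
  have eper : ∀ θ, e (θ + 2 * Real.pi) = e θ := by
    intro θ; rw [two_mul, ← add_assoc, e_add_pi, e_add_pi, neg_neg]
  have cH : ∀ σ : ℝ, Continuous fun θ => H (P m) (e θ) (hh (P m) θ + σ) := fun σ =>
    cont_H hQ e_cont e_ne (b3.add continuous_const)
  -- strips
  have hstrip : ∀ ε : ℝ, 0 < ε → ∃ σ : ℝ, 0 < σ ∧ σ < μ ∧ ∀ θ,
      H (P m) (e θ) (hh (P m) θ + -σ) - H (P m) (e θ) (hh (P m) θ + σ) < ε := by
    intro ε hε
    let σ : ℕ → ℝ := fun n => μ / ((n : ℝ) + 2)
    have hσ0 : ∀ n, 0 < σ n := fun n => div_pos hμ (by positivity)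
    have hσa : ∀ i j, i ≤ j → σ j ≤ σ i := by
      intro i j hij
      have : (i : ℝ) ≤ j := by exact_mod_cast hij
      exact div_le_div_of_nonneg_left hμ.le (by positivity) (by linarith)
    have hσt : Tendsto σ atTop (𝓝 0) := by
      have h1 : Tendsto (fun n : ℕ => (n : ℝ) + 2) atTop atTop :=
        tendsto_atTop_add_const_right _ _ tendsto_natCast_atTop_atTop
      exact Tendsto.div_atTop tendsto_const_nhds h1
    let F : ℕ → ℝ → ℝ := fun n θ =>
      H (P m) (e θ) (hh (P m) θ + -σ n) - H (P m) (e θ) (hh (P m) θ + σ n)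
    have hF : ∀ n, Continuous (F n) := fun n => (cH _).sub (cH _)
    have hmono : ∀ i j, i ≤ j → ∀ θ, F j θ ≤ F i θ := by
      intro i j hij θ
      have h1 := hσa i j hij
      have h2 := H_anti hQ (e θ) (show hh (P m) θ + -σ i ≤ hh (P m) θ + -σ j by linarith)
      have h3 := H_anti hQ (e θ) (show hh (P m) θ + σ j ≤ hh (P m) θ + σ i by linarith)
      show H (P m) (e θ) (hh (P m) θ + -σ j) - H (P m) (e θ) (hh (P m) θ + σ j) ≤
        H (P m) (e θ) (hh (P m) θ + -σ i) - H (P m) (e θ) (hh (P m) θ + σ i)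
      linarith
    obtain ⟨n, hn⟩ := (isCompact_Icc (a := (0 : ℝ)) (b := 2 * Real.pi)).elim_directed_cover
      (fun n => {θ | F n θ < ε}) (fun n => isOpen_lt (hF n) continuous_const)
      (by
        intro θ _
        have hc : Continuous fun s : ℝ =>
            H (P m) (e θ) (hh (P m) θ + -s) - H (P m) (e θ) (hh (P m) θ + s) :=
          (cont_H hQ continuous_const (fun _ => e_ne θ) (by fun_prop)).sub
            (cont_H hQ continuous_const (fun _ => e_ne θ) (by fun_prop))
        have h1 := (hc.tendsto 0).comp hσt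
        have h2 : H (P m) (e θ) (hh (P m) θ + -0) - H (P m) (e θ) (hh (P m) θ + 0) < ε := by
          simpa using hε
        obtain ⟨n, hn⟩ := (h1.eventually_lt_const h2).exists
        exact mem_iUnion.2 ⟨n, hn⟩)
      (directed_of_isDirected_le (fun i j hij θ hθ => lt_of_le_of_lt (hmono i j hij θ) hθ))
    refine ⟨σ n, hσ0 n, ?_, ?_⟩
    · show μ / ((n : ℝ) + 2) < μ
      rw [div_lt_iff₀ (by positivity)]
      have : (0 : ℝ) ≤ n := Nat.cast_nonneg n
      nlinarith
    · intro θ
      have hp : Function.Periodic (F n) (2 * Real.pi) := by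
        intro θ
        show H (P m) (e (θ + 2 * Real.pi)) (hh (P m) (θ + 2 * Real.pi) + -σ n) -
          H (P m) (e (θ + 2 * Real.pi)) (hh (P m) (θ + 2 * Real.pi) + σ n) = _
        rw [eper, hper]
      obtain ⟨y, hy, hy1⟩ := hp.exists_mem_Ico₀ Real.two_pi_pos θ
      have h1 := hn ⟨hy.1, hy.2.le⟩
      have h2 : F n θ < ε := by rw [hy1]; exact h1
      exact h2
  -- separation
  have hsep : ∀ σ : ℝ, 0 < σ → ∃ s : ℝ, 0 < s ∧ ∀ θ,
      M (P m) / 2 + s ≤ H (P m) (e θ) (hh (P m) θ + -σ) ∧
      H (P m) (e θ) (hh (P m) θ + σ) ≤ M (P m) / 2 - s := by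
    intro σ hσ
    let f : ℝ → ℝ := fun θ => min (H (P m) (e θ) (hh (P m) θ + -σ) - M (P m) / 2)
      (M (P m) / 2 - H (P m) (e θ) (hh (P m) θ + σ))
    have hf : Continuous f :=
      ((cH _).sub continuous_const).min (continuous_const.sub (cH _))
    have hp : Function.Periodic f (2 * Real.pi) := by
      intro θ
      show min (H (P m) (e (θ + 2 * Real.pi)) (hh (P m) (θ + 2 * Real.pi) + -σ) - M (P m) / 2)
        (M (P m) / 2 - H (P m) (e (θ + 2 * Real.pi)) (hh (P m) (θ + 2 * Real.pi) + σ)) = _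
      rw [eper, hper]
    have hfp : ∀ θ, 0 < f θ := by
      intro θ
      have hc := b1 θ
      apply lt_min
      · rw [sub_pos, ← hc]
        by_cases h3 : H (P m) (e θ) (hh (P m) θ + -σ) < M (P m)
        · exact H_strict hQ (e θ) (by linarith) (by rw [hc]; linarith) h3
        · push Not at h3
          rw [hc]; linarith
      · rw [sub_pos]
        rw [← hc]
        by_cases h3 : 0 < H (P m) (e θ) (hh (P m) θ + σ)
        · exact H_strict hQ (e θ) (by linarith) h3 (by rw [hc]; linarith)
        · push Not at h3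
          rw [hc]; linarith
    obtain ⟨s, ⟨θ0, hs0⟩, hs⟩ := (hp.compact_of_continuous Real.two_pi_pos.ne' hf).exists_isLeast
      (range_nonempty f)
    refine ⟨s, by rw [← hs0]; exact hfp θ0, fun θ => ?_⟩
    have h1 : s ≤ f θ := hs ⟨θ, rfl⟩
    have h2 := le_min_iff.1 h1
    constructor <;> linarith [h2.1, h2.2]
  obtain ⟨σ, hσ, hσμ, hstr⟩ := hstrip (μ / 4) (by linarith)
  obtain ⟨s, hs, hsep⟩ := hsep σ hσ
  have hmin : 0 < min s μ := lt_min hs hμ
  refine ⟨min (1 / 2) (min s μ / (16 * M (P m))), lt_min (by norm_num) (by positivity),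
    lt_of_le_of_lt (min_le_left _ _) (by norm_num), ?_⟩
  intro η hη0 hη R hR hN
  have hη1 : η ≤ 1 := hη.trans ((min_le_left _ _).trans (by norm_num))
  have hd : 4 * η * M (P m) ≤ min s μ / 4 := by
    have h1 := hη.trans (min_le_right _ _)
    rw [le_div_iff₀ (by positivity)] at h1
    linarith
  have hds : 4 * η * M (P m) ≤ s / 4 := hd.trans (by linarith [min_le_left s μ])
  have hdμ : 4 * η * M (P m) ≤ μ / 4 := hd.trans (by linarith [min_le_right s μ])
  have hdiff : ∀ S : Set E2, MeasurableSet S →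
      |(mu R).real S - (mu (P m)).real S| ≤ 4 * η * M (P m) := fun S hS =>
    near_diff hη0 hη1 hQ h0 hR hN hS
  have hMM : |M R - M (P m)| ≤ 4 * η * M (P m) := hdiff univ MeasurableSet.univ
  have hHH : ∀ a c, |H R a c - H (P m) a c| ≤ 4 * η * M (P m) := fun a c =>
    hdiff _ (half_meas a c)
  obtain ⟨r1, -, -, -, -, -⟩ := hB R hR
  rw [abs_le] at hMM
  have hhc : ∀ θ, hh (P m) θ + -σ < hh R θ ∧ hh R θ < hh (P m) θ + σ := by
    intro θ
    obtain ⟨s1, s2⟩ := hsep θ
    have t1 := abs_le.1 (hHH (e θ) (hh (P m) θ + -σ))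
    have t2 := abs_le.1 (hHH (e θ) (hh (P m) θ + σ))
    have hc := r1 θ
    constructor
    · by_contra hcon
      push Not at hcon
      have := H_anti hR (e θ) hcon
      rw [hc] at this
      linarith
    · by_contra hcon
      push Not at hcon
      have := H_anti hR (e θ) hcon
      rw [hc] at this
      linarith
  intro θ
  refine ⟨?_, ?_⟩
  · obtain ⟨h1, h2⟩ := hhc θ
    rw [abs_lt]
    constructor <;> linarith
  · obtain ⟨h1, h2⟩ := hhc θ
    obtain ⟨h3, h4⟩ := hhc (θ + Real.pi / 2)
    set a := e θ with ha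
    set b := e (θ + Real.pi / 2) with hb
    set c := hh (P m) θ with hc
    set d := hh (P m) (θ + Real.pi / 2) with hd'
    set c' := hh R θ with hc'
    set d' := hh R (θ + Real.pi / 2) with hd''
    have k1 : |App R a b c' d' - App (P m) a b c' d'| ≤ 4 * η * M (P m) :=
      hdiff _ ((half_meas a c').inter (half_meas b d'))
    have k2 : App (P m) a b c' d' ≤ App (P m) a b (c + -σ) (d + -σ) := by
      apply mr_mono hQ
      rintro x ⟨h5, h6⟩
      exact ⟨h1.le.trans h5, h3.le.trans h6⟩
    have k3 : App (P m) a b (c + σ) (d + σ) ≤ App (P m) a b c' d' := by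
      apply mr_mono hQ
      rintro x ⟨h5, h6⟩
      exact ⟨h2.le.trans h5, h4.le.trans h6⟩
    have k4 : App (P m) a b c d ≤ App (P m) a b (c + -σ) (d + -σ) := by
      apply mr_mono hQ
      rintro x ⟨h5, h6⟩
      exact ⟨(show c + -σ ≤ c by linarith).trans h5, (show d + -σ ≤ d by linarith).trans h6⟩
    have k5 : App (P m) a b (c + σ) (d + σ) ≤ App (P m) a b c d := by
      apply mr_mono hQ
      rintro x ⟨h5, h6⟩
      exact ⟨(show c ≤ c + σ by linarith).trans h5, (show d ≤ d + σ by linarith).trans h6⟩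
    have k6 : App (P m) a b (c + -σ) (d + -σ) ≤ App (P m) a b (c + σ) (d + σ) +
        (H (P m) a (c + -σ) - H (P m) a (c + σ)) + (H (P m) b (d + -σ) - H (P m) b (d + σ)) := by
      have e1 : ∀ (a : E2) (c : ℝ), H (P m) a (c + -σ) - H (P m) a (c + σ) =
          (mu (P m)).real ({x | c + -σ ≤ dot a x} \ {x | c + σ ≤ dot a x}) := by
        intro a c
        have h7 := measureReal_inter_add_sdiff (μ := mu (P m)) (s := {x | c + -σ ≤ dot a x})
          (half_meas a (c + σ))
        have h8 : {x : E2 | c + -σ ≤ dot a x} ∩ {x | c + σ ≤ dot a x} = {x | c + σ ≤ dot a x} := by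
          apply inter_eq_self_of_subset_right
          intro x hx
          have : c + σ ≤ dot a x := hx
          show c + -σ ≤ dot a x
          linarith
        rw [h8] at h7
        unfold H
        linarith
      rw [e1, e1]
      unfold App
      refine le_trans ?_ ((measureReal_union_le _ _).trans
        (add_le_add (measureReal_union_le _ _) le_rfl))
      apply mr_mono hQ
      rintro x ⟨h5, h6⟩
      by_cases h7 : c + σ ≤ dot a x
      · by_cases h8 : d + σ ≤ dot b x
        · left; left; exact ⟨h7, h8⟩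
        · right; exact ⟨h6, h8⟩
      · left; right; exact ⟨h5, h7⟩
    have k7 := hstr θ
    have k8 := hstr (θ + Real.pi / 2)
    rw [← ha, ← hc] at k7
    rw [← hb, ← hd'] at k8
    rw [abs_le] at k1
    show |App R a b c' d' - M R / 4 - (App (P m) a b c d - M (P m) / 4)| < μ
    rw [abs_lt]
    constructor <;> linarith

end Pool.Agent.W2helper49.QD
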